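import Pool.Agent.N411.CV.Cover

set_option autoImplicit false

namespace Pool.Agent.Results.MP_20b97f_co.EightSevenths

open Pool.Agent.H126R2.CDC (MGraph)

/-- Even weights within a factor of `8 / 7`, with no lower bound on the weights: if all weights are
positive and even and any two of them differ by a factor of at most `8 / 7`, then the weighting has a
circuit cover if and only if it lies in the cone and in the lattice generated by the circuits. In
particular `{2 s, 2 s + 2}` is a good range for every `s ≥ 7`. -/
theorem result (V E : Type) [Fintype V] [DecidableEq V] [Fintype E] [DecidableEq E]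
    (G : MGraph V E) (p : E → ℕ) (hev : ∀ e, Even (p e)) (hpos : ∀ e, 0 < p e)
    (hr : ∀ e f, 7 * p e ≤ 8 * p f) :
    (∃ F : Multiset (Finset E), (∀ C ∈ F, G.IsCircuit C) ∧
        ∀ e, F.countP (fun C => e ∈ C) = p e) ↔
      (∃ w : Finset E → ℝ, (∀ C, 0 ≤ w C) ∧ (∀ C, ¬ G.IsCircuit C → w C = 0) ∧
        ∀ e, (p e : ℝ) = ∑ C : Finset E, w C * (if e ∈ C then 1 else 0)) ∧
      (fun e => (p e : ℤ)) ∈ AddSubgroup.closure
        {x : E → ℤ | ∃ C, G.IsCircuit C ∧ x = fun e => if e ∈ C then 1 else 0} :=
  Pool.Agent.N411.CV.eight_sevenths G p hev hpos hr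

end Pool.Agent.Results.MP_20b97f_co.EightSevenths
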